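import Pool.Agent.X279.IM.Zar

/-!
# MP_09799c_ag: points whose adjoint Galois module modulo `l` is irreducible

`Γ` is the image of `Gal(k̄/k)` in `GL(T)(Z_l)`, `T` the `l`-adic Tate module of `A_x`, `x` a point
of `A_g` over a number field `k`, `l ≥ 3`. `S` is the Weil pairing of the principal polarization,
an alternating form with unit determinant, and `Γ` is a closed group of similitudes of `S`.

* (1) General statement: `G` saturated (for example `G = 𝒢(Z_l)`, `𝒢` a smooth model of the derived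
  Mumford-Tate group), commutators of `Γ` in `G`, and the reduction of `Γ` modulo `l` acts
  irreducibly on the Lie algebra of `G` modulo `l`. Then either the elements of `Γ` congruent to
  `1` modulo `l` are central in `Γ`, or the elements of `Γ ∩ G` congruent to `1` modulo `l` are
  exactly the elements of `G` congruent to `1` modulo `l ^ k`, for some `k ≥ 1`.
* (2) `G = Sp(S)(Z_l)`: no hypothesis but the irreducibility of `sp` modulo `l`; in the second case
  all open subgroups of `Γ` are Zariski dense in (the open subset `det (1 + g) ≠ 0` of) `Sp(S)`,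
  over all fields containing `Z_l`.
* (3) If `l ≥ 4 g` and `l` divides the order of the reduction of `Γ`, then the second case holds
  with `k = 1`.
-/

namespace Pool.Agent.Results.MP_09799c_ag.AdjointModEll

open Pool.Agent.X279.IM Matrix

/-- The elements of `Γ` congruent to `1` modulo `p` are central in `Γ`. -/
def CentralKernel {ι : Type} [Fintype ι] [DecidableEq ι] {p : ℕ} [Fact p.Prime]
    (Γ : Subgroup (GL ι ℤ_[p])) : Prop :=
  ∀ a ∈ Γ, Dv 1 ((a : Matrix ι ι ℤ_[p]) - 1) → ∀ b ∈ Γ, a * b = b * a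

/-- The elements of `Γ ∩ G` congruent to `1` modulo `p` are exactly the elements of `G` congruent
to `1` modulo `p ^ k`, and `k ≥ 1`. -/
def FullLevel {ι : Type} [Fintype ι] [DecidableEq ι] {p : ℕ} [Fact p.Prime] (k : ℕ)
    (Γ G : Subgroup (GL ι ℤ_[p])) : Prop :=
  1 ≤ k ∧ ∀ g ∈ G, Dv 1 ((g : Matrix ι ι ℤ_[p]) - 1) →
    (g ∈ Γ ↔ Dv k ((g : Matrix ι ι ℤ_[p]) - 1))

/-- A polynomial in the entries of a matrix that vanishes on the elements of `Γ` congruent to `1`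
modulo `p ^ j` vanishes on all isometries `g` of `S` with `det (1 + g) ≠ 0`, over every field `K`
containing the `p`-adic integers. -/
def ZariskiBig {ι : Type} [Fintype ι] [DecidableEq ι] {p : ℕ} [Fact p.Prime]
    (Γ : Subgroup (GL ι ℤ_[p])) (S : Matrix ι ι ℤ_[p]) : Prop :=
  ∀ (K : Type) [Field K] (φ : ℤ_[p] →+* K), Function.Injective φ →
    ∀ (j : ℕ) (f : MvPolynomial (ι × ι) K),
    (∀ γ ∈ Γ, Dv j ((γ : Matrix ι ι ℤ_[p]) - 1) → evM ((γ : Matrix ι ι ℤ_[p]).map φ) f = 0) →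
    ∀ g : Matrix ι ι K, gᵀ * S.map φ * g = S.map φ → (1 + g).det ≠ 0 → evM g f = 0

theorem zariskiBig_of_fullLevel {ι : Type} [Fintype ι] [DecidableEq ι] {p : ℕ} [Fact p.Prime]
    {Γ : Subgroup (GL ι ℤ_[p])} {S : Matrix ι ι ℤ_[p]} (hS : IsUnit S.det) (hT : Sᵀ = -S) {k : ℕ}
    (h : FullLevel k Γ (SOrth S)) : ZariskiBig Γ S := by
  intro K _ φ hφ j f hf g hg hdet
  obtain ⟨hk, h⟩ := h
  refine zariski_dense hS (ε := -1) (by norm_num) (by rw [hT, neg_one_smul])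
    (k := max k j) (le_max_of_le_left hk) φ hφ f ?_ g hg hdet
  intro γ hγ hd
  have h1 := hd.mono (hk.trans (le_max_left k j))
  exact hf γ ((h γ hγ h1).2 (hd.mono (le_max_left k j))) (hd.mono (le_max_right k j))

theorem result :
    -- (1)
    (∀ (ι : Type) [Fintype ι] [DecidableEq ι] (p : ℕ) [Fact p.Prime], 3 ≤ p →
      ∀ G Γ : Subgroup (GL ι ℤ_[p]), Saturated G →
      (∀ a ∈ Γ, ∀ b ∈ Γ, a * b * a⁻¹ * b⁻¹ ∈ G) → PadicClosed Γ → AdjointIrreducible Γ G →
      CentralKernel Γ ∨ ∃ k, FullLevel k Γ G) ∧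
    -- (2)
    (∀ (ι : Type) [Fintype ι] [DecidableEq ι] (p : ℕ) [Fact p.Prime], 3 ≤ p →
      ∀ S : Matrix ι ι ℤ_[p], Sᵀ = -S → IsUnit S.det →
      ∀ Γ : Subgroup (GL ι ℤ_[p]), (∀ γ ∈ Γ, IsSimilitude S γ) → PadicClosed Γ →
      IrreducibleOnSp Γ S →
      CentralKernel Γ ∨ ∃ k, FullLevel k Γ (SOrth S) ∧ ZariskiBig Γ S) ∧
    -- (3)
    (∀ (ι : Type) [Fintype ι] [DecidableEq ι] (p : ℕ) [Fact p.Prime], 3 ≤ p →
      2 * Fintype.card ι ≤ p →
      ∀ S : Matrix ι ι ℤ_[p], Sᵀ = -S → IsUnit S.det →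
      ∀ Γ : Subgroup (GL ι ℤ_[p]), (∀ γ ∈ Γ, IsSimilitude S γ) → PadicClosed Γ →
      IrreducibleOnSp Γ S → p ∣ Nat.card (Γ.map red) →
      FullLevel 1 Γ (SOrth S) ∧ ZariskiBig Γ S) := by
  refine ⟨?_, ?_, ?_⟩
  · intro ι _ _ p _ hp3 G Γ hsat hcomm hcl hirr
    rcases dichotomy hp3 hsat hcomm hcl hirr with h | ⟨k, hk, h⟩
    · exact Or.inl (central_of_trivial hcomm h)
    · exact Or.inr ⟨k, hk, h⟩
  · intro ι _ _ p _ hp3 S hT hS Γ hsim hcl hirr
    have hcomm : ∀ a ∈ Γ, ∀ b ∈ Γ, a * b * a⁻¹ * b⁻¹ ∈ SOrth S := fun a ha b hb =>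
      comm_mem_SOrth (hsim a ha) (hsim b hb)
    rcases dichotomy hp3 (saturated_SOrth hp3 hS.ne_zero) hcomm hcl
      (adjointIrreducible_of_sp hirr) with h | ⟨k, hk, h⟩
    · exact Or.inl (central_of_trivial hcomm h)
    · exact Or.inr ⟨k, ⟨hk, h⟩, zariskiBig_of_fullLevel hS hT ⟨hk, h⟩⟩
  · intro ι _ _ p _ hp3 hn S hT hS Γ hsim hcl hirr hdvd
    obtain ⟨hne, -⟩ := exists_unip hn hdvd
    have h1 : FullLevel 1 Γ (SOrth S) := ⟨le_rfl, fun g hg hg1 => ⟨fun _ => hg1, fun _ =>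
      simil_kernel hp3 hS hn hsim hcl hdvd (irreducibleOnIsoLie_of_sp hp3 hS hT hirr) g hg hg1⟩⟩
    exact ⟨h1, zariskiBig_of_fullLevel hS hT h1⟩

end Pool.Agent.Results.MP_09799c_ag.AdjointModEll
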