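import Pool.Agent.X259.U.U41

set_option autoImplicit false

/-!
# An `ℓ`-Galois special point which is not a CM point has almost twice as many Tate classes as Hodge
# classes, in all degrees above a bound which is polynomial in `g`

Let `x` be a point of `𝒜_g` over the algebraic closure (in `ℂ`) of a field `k` finitely generated
over `ℚ`, `A` the abelian variety `A_x`, and `ℓ` a prime number. `W = H_1(A(ℂ), ℚ)` is the rational
homology, `T` the tangent space, `per` the inclusion of `W` in `T`, and `ω₀` the Riemann form of the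
polarization. `V = ℚ_ℓ ⊗ W` is the rational Tate module, with the continuous action `ρ` of the
(compact) Galois group `Γ` of `k` and with the Weil pairing `ω`, the extension of `ω₀`; `χ` is the
cyclotomic character. The classes in `H^1(A) ^ {⊗ 2 m} (m)` are the multilinear forms in `2 m`
variables (indexed by `Fin m × Fin 2`) in `W` or `V`; `HodgeSpace m` and `TateSpace m` are the
spaces of the Hodge classes and the Tate classes of `x`.

Let `Y` be a closed irreducible subvariety of `𝒜_g` which contains `x`. By parallel transport the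
cohomology of the abelian variety over the (geometric) generic point of `Y` is the cohomology of
`A`; `HY m` is the space of the Hodge classes of the generic point of `Y` and `TY m` the space of
the Tate classes of the generic point, in `H^1(A) ^ {⊗ 2 m} (m)`. Then

* `HY` is a closed family of spaces of Hodge classes of `x` (`IsClosedFamily`: it contains `1` and
  the polarization, and it is stable under permutations, exterior products and contractions with
  the polarization), because `G_x ⊂ G_Y`;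
* `HY m ⊗ ℚ_ℓ ⊂ TY m` (Deligne), and `TY m ⊂ TateSpace m`, because `G_{ℓ,x} ⊂ G_{ℓ,Y}`.

The groups `G_{ℓ,x}` and `G_{ℓ,Y}` are reductive (Faltings), they contain the homotheties, and they
are determined by their invariants; so `G_{ℓ,x} = G_{ℓ,Y}` if and only if
`TY m' = TateSpace m'` for all `m'`. The point `x` is `ℓ`-Galois special if this is false for all
`Y` of positive dimension which contain `x`.

**Theorem.** Let `c ≥ 1`.

1. Let `r ≥ 1` and `m ≥ 256 c g ^ 3 r ^ 2 (⌊log₂ (4 g c r)⌋ + 1)`. If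
   `dim TateSpace m ≤ (2 - 1 / c) dim HY m` then, for all `m' ≤ r`, `HY m' = HodgeSpace m'`, and this
   space spans `TY m' = TateSpace m'` (`SameClasses`).
2. Let `m ≥ 1024 c g ^ 3 (⌊log₂ (8 g c)⌋ + 1)`, and `n ≥ (2 g) ^ (8 g + 13)` or, if `A` has no factors
   of type IV, `n ≥ 128 g ^ 3 (⌊log₂ (2 g)⌋ + 1)`. If
   `dim TateSpace m ≤ (2 - 1 / c) dim HodgeSpace m` and
   `dim HodgeSpace n ≤ (2 - 2 / (n + 2)) dim HY n` then the conclusion of 1 is true in all degrees:
   `G_{ℓ,x} = G_{ℓ,Y} = G_Y ⊗ ℚ_ℓ = G_x ⊗ ℚ_ℓ`, and **`x` is not `ℓ`-Galois special** if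
   `Y` is positive dimensional.
3. Let `x` be a Hodge generic point of `Y` (`HY = HodgeSpace`) and let the Mumford-Tate conjecture
   be true for the generic point of `Y` (`HY` spans `TY`), and let
   `m ≥ 1024 c g ^ 3 (⌊log₂ (8 g c)⌋ + 1)`. The following are equivalent: `TY m' = TateSpace m'` for
   all `m'` (this means `G_{ℓ,x} = G_{ℓ,Y}`); `TY m = TateSpace m`;
   `dim TateSpace m ≤ (2 - 1 / c) dim TY m`.

**The question.** Let `x` be a point of `𝒜_g` over the field of algebraic numbers which is not a CM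
point. Let `Y` be the smallest special subvariety which contains `x`. Then `Y` has positive
dimension, `x` is Hodge generic in `Y`, and the Mumford-Tate conjecture is known for the generic
point of `Y` (the monodromy group contains the derived group of `G_Y`, and centres are known). So, by 3, if
`x` is `ℓ`-Galois special then `dim TateSpace m > (2 - 1 / c) dim HodgeSpace m` for all `c ≥ 1` and
`m ≥ 1024 c g ^ 3 (⌊log₂ (8 g c)⌋ + 1)`: **an `ℓ`-Galois special point which is not a CM point has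
almost twice as many Tate classes as Hodge classes in all these degrees.** So Q1 is true for
`(g, ℓ)` if, for all other points over the algebraic numbers, this inequality fails for one pair
`(c, m)`. Moreover, by 1 and 2, an `ℓ`-Galois special point `x` can not be close to any
positive dimensional `Y` which contains `x` in the sense of the numbers of the classes: the first
or the second inequality in 2 is false for all `m`, respectively for all `n`, above the bounds.

The hypotheses in `IsPoint` (`Semisimple`, `Faltings`: semisimplicity and endomorphisms; `Deligne`: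
Hodge classes are Tate classes; `Centres`: the Mumford-Tate conjecture holds for the centres, Vasiu,
Ullmo-Yafaev) are theorems for all abelian varieties.

The proof. We embed `ℚ_ℓ` in the field of complex numbers. The complex combinations of the
classes in `HY m` are the invariants of a compact group `G` of unitary symplectic matrices
(positivity of the polarization, first fundamental theorem, Haar integration). The complex Tate
tensors are a family which is stable under permutations, products and contractions. Suppose that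
there is a Tate tensor `F ≠ 0` of degree `2 m' ≤ 2 r` which is orthogonal to the invariants of `G`.
The operator `M = ∫ ⟨F, g F⟩ g dg` on the tensors of degree `2 m` is the average over `G` of
`x ⊗ F^*`, contracted with `F`; so its values are Tate tensors, and it vanishes after averaging
over `G`. So `tr M ≤ ⟨F, F⟩ (dim TateSpace m - dim HY m)`. On the other hand, the trace is
`∫ ⟨F, g F⟩ (tr g) ^ {2 m} dg`; if the eigenvalues of `g` or `- g` have arguments at most `θ` then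
`Re ⟨F, g F⟩ ≥ cos (2 r θ) ⟨F, F⟩`, and otherwise `|tr g| ≤ 2 g - 2 (1 - cos θ)`. This gives 1. For
2 and 3, the Casimir class of the Lie algebra of `G_{ℓ,x}` (a Tate class of degree 4) is a
combination of Hodge classes by 1, and this class decides (`X259.Q.casimir_decides`).
-/

noncomputable section

namespace Pool.Agent.Results.MP_09799c_ag.NotGaloisSpecial

open Module TensorProduct Pool.Agent.H204R3.GP Pool.Agent.W516.MTD

variable {ℓ : ℕ} [Fact ℓ.Prime] {W T : Type} [AddCommGroup W] [Module ℚ W] [AddCommGroup T]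
  [Module ℂ T] {Γ : Type} [Group Γ]

/-- The rational classes in `H^1(A) ^ {⊗ 2 m} (m)`. -/
abbrev RatForm (W : Type) [AddCommGroup W] [Module ℚ W] (m : ℕ) : Type :=
  MultilinearMap ℚ (fun _ : Fin m × Fin 2 => W) ℚ

/-- The classes in `H^1(A, ℚ_ℓ) ^ {⊗ 2 m} (m)`. -/
abbrev Form (ℓ : ℕ) [Fact ℓ.Prime] (W : Type) [AddCommGroup W] [Module ℚ W] (m : ℕ) : Type :=
  MultilinearMap ℚ_[ℓ] (fun _ : Fin m × Fin 2 => ℚ_[ℓ] ⊗[ℚ] W) ℚ_[ℓ]

/-- The vectors `v` (for the first `m` pairs of variables), and `x, y` for the last pair. -/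
def addPair {m : ℕ} (v : Fin m × Fin 2 → W) (x y : W) : Fin (m + 1) × Fin 2 → W :=
  fun p => Fin.lastCases (motive := fun _ => W) (![x, y] p.2) (fun j => v (j, p.2)) p.1

/-- The spaces `C m` of classes in `H^1(A) ^ {⊗ 2 m} (m)` are stable under exterior products. -/
def StableProducts (C : ∀ m : ℕ, Submodule ℚ (RatForm W m)) : Prop :=
  ∀ (m m' : ℕ), ∀ ψ ∈ C m, ∀ ψ' ∈ C m', ∀ ψ'' : RatForm W (m + m'),
    (∀ v, ψ'' v = ψ (fun p => v (Fin.castAdd m' p.1, p.2)) *
      ψ' (fun p => v (Fin.natAdd m p.1, p.2))) → ψ'' ∈ C (m + m')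

/-- The spaces `C m` are stable under the contraction of the last two variables with the inverse of
the form `ω₀`, which is given by dual families `β`, `β'`. -/
def StableContraction (ω₀ : W →ₗ[ℚ] W →ₗ[ℚ] ℚ) (C : ∀ m : ℕ, Submodule ℚ (RatForm W m)) : Prop :=
  ∀ β β' : Fin (finrank ℚ W) → W, (∀ w : W, w = ∑ i, ω₀ w (β' i) • β i) →
    ∀ (m : ℕ), ∀ ψ ∈ C (m + 1), ∀ ψ' : RatForm W m,
      (∀ v, ψ' v = ∑ i, ψ (addPair v (β i) (β' i))) → ψ' ∈ C m

/-- The spaces `C m` of classes in `H^1(A) ^ {⊗ 2 m} (m)` form a closed family: they contain the unit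
and the polarization `ω₀`, and they are stable under permutations of the variables, exterior
products, and the contraction of the last two variables with the inverse of `ω₀`. -/
structure IsClosedFamily (ω₀ : W →ₗ[ℚ] W →ₗ[ℚ] ℚ) (C : ∀ m : ℕ, Submodule ℚ (RatForm W m)) :
    Prop where
  one : ∀ ψ : RatForm W 0, (∀ v, ψ v = 1) → ψ ∈ C 0
  polarization : ∀ ψ : RatForm W 1, (∀ v, ψ v = ω₀ (v (0, 0)) (v (0, 1))) → ψ ∈ C 1
  perm : ∀ (m : ℕ) (σ : Equiv.Perm (Fin m × Fin 2)), ∀ ψ ∈ C m, ψ.domDomCongr σ ∈ C m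
  prod : StableProducts C
  contraction : StableContraction ω₀ C

/-- There are no factors of type IV: the only element `P` of the centre of `End(A) ⊗ ℚ` with
`P' = - P` for the Rosati involution is zero. -/
def NoTypeFour (per : W →+ T) (ω₀ : W →ₗ[ℚ] W →ₗ[ℚ] ℚ) : Prop :=
  ∀ P : Module.End ℚ W, IsHodgeEnd per P →
    (∀ P' : Module.End ℚ W, IsHodgeEnd per P' → P * P' = P' * P) →
    (∀ u v, ω₀ (P u) v = -ω₀ u (P v)) → P = 0

/-- The space of the Tate classes in `H^1(A, ℚ_ℓ) ^ {⊗ 2 m} (m)`. -/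
def TateSpace (ρ : Representation ℚ_[ℓ] Γ (ℚ_[ℓ] ⊗[ℚ] W)) (χ : Γ →* ℚ_[ℓ]) (m : ℕ) :
    Submodule ℚ_[ℓ] (Form ℓ W m) where
  carrier := {φ | IsTateTensor ρ χ m φ}
  zero_mem' := ⟨⊤, inferInstance, fun s _ v => by simp⟩
  add_mem' := by
    rintro a b ⟨Δ, hΔ, h⟩ ⟨Δ', hΔ', h'⟩
    refine ⟨Δ ⊓ Δ', inferInstance, fun s hs v => ?_⟩
    rw [add_apply, add_apply, h s hs.1, h' s hs.2, mul_add]
  smul_mem' := by
    rintro c a ⟨Δ, hΔ, h⟩
    refine ⟨Δ, hΔ, fun s hs v => ?_⟩
    rw [smul_apply, smul_apply, h s hs, smul_eq_mul, smul_eq_mul, mul_left_comm]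

/-- The space of the Hodge classes in `H^1(A) ^ {⊗ 2 m} (m)`. -/
def HodgeSpace (per : W →+ T) (m : ℕ) : Submodule ℚ (RatForm W m) where
  carrier := {ψ | IsHodgeTensor per ψ}
  zero_mem' := ⟨0, fun _ => by simp, fun _ _ _ => rfl⟩
  add_mem' := by
    rintro a b ⟨A, hA, hA'⟩ ⟨B, hB, hB'⟩
    refine ⟨A + B, fun v => ?_, fun z hz u => ?_⟩
    · rw [add_apply, add_apply, hA, hB]
      push_cast
      rfl
    · rw [add_apply, add_apply, hA' z hz, hB' z hz]
  smul_mem' := by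
    rintro c a ⟨A, hA, hA'⟩
    refine ⟨(c : ℝ) • A, fun v => ?_, fun z hz u => ?_⟩
    · rw [smul_apply, smul_apply, hA, smul_eq_mul, smul_eq_mul]
      push_cast
      rfl
    · rw [smul_apply, smul_apply, hA' z hz]

/-- The space of the linear combinations, with coefficients in `ℚ_ℓ`, of the classes in `C`. -/
def Span (ℓ : ℕ) [Fact ℓ.Prime] {m : ℕ} (C : Submodule ℚ (RatForm W m)) :
    Submodule ℚ_[ℓ] (Form ℓ W m) :=
  Submodule.span ℚ_[ℓ] {φ' : Form ℓ W m |
    ∃ ψ ∈ C, ∀ v : Fin m × Fin 2 → W, φ' (fun l => (1 : ℚ_[ℓ]) ⊗ₜ[ℚ] v l) = ((ψ v : ℚ) : ℚ_[ℓ])}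

/-- The Hodge classes of the generic point of `Y` in `H^1(A) ^ {⊗ 2 m} (m)` are the Hodge classes of
the point `x`, and they span the space of the Tate classes of the generic point of `Y`, and this is
the space of the Tate classes of `x`. -/
def SameClasses (per : W →+ T) (ρ : Representation ℚ_[ℓ] Γ (ℚ_[ℓ] ⊗[ℚ] W)) (χ : Γ →* ℚ_[ℓ])
    (HY : ∀ m : ℕ, Submodule ℚ (RatForm W m)) (TY : ∀ m : ℕ, Submodule ℚ_[ℓ] (Form ℓ W m))
    (m : ℕ) : Prop :=
  HY m = HodgeSpace per m ∧ Span ℓ (HY m) = TY m ∧ TY m = TateSpace ρ χ m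

/-- `x` is a Hodge generic point of `Y`. -/
def HodgeGeneric (per : W →+ T) (HY : ∀ m : ℕ, Submodule ℚ (RatForm W m)) : Prop :=
  ∀ n, HY n = HodgeSpace per n

/-- The Mumford-Tate conjecture for the generic point of `Y`. -/
def MumfordTate (HY : ∀ m : ℕ, Submodule ℚ (RatForm W m))
    (TY : ∀ m : ℕ, Submodule ℚ_[ℓ] (Form ℓ W m)) : Prop :=
  ∀ n, Span ℓ (HY n) = TY n

/-- The Tate classes of `x` in `H^1(A) ^ {⊗ 2 m} (m)` are Tate classes of the generic point of `Y`. -/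
def SameTate (ρ : Representation ℚ_[ℓ] Γ (ℚ_[ℓ] ⊗[ℚ] W)) (χ : Γ →* ℚ_[ℓ])
    (TY : ∀ m : ℕ, Submodule ℚ_[ℓ] (Form ℓ W m)) (m : ℕ) : Prop :=
  TY m = TateSpace ρ χ m

/-- The dimension of a space of rational classes. -/
def dimH {m : ℕ} (L : Submodule ℚ (RatForm W m)) : ℕ := finrank ℚ L

/-- The dimension of a space of classes with coefficients in `ℚ_ℓ`. -/
def dimT {m : ℕ} (L : Submodule ℚ_[ℓ] (Form ℓ W m)) : ℕ := finrank ℚ_[ℓ] L

/-- The data of the point `x`: the complex torus `A(ℂ)` of dimension `g` with a polarization, the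
Galois group, its action on the Tate module and the Weil pairing, and the theorems of Faltings and
Deligne and the theorem on centres. -/
structure IsPoint [FiniteDimensional ℚ W] [TopologicalSpace Γ] (g : ℕ) (per : W →+ T)
    (ω₀ : W →ₗ[ℚ] W →ₗ[ℚ] ℚ) (ρ : Representation ℚ_[ℓ] Γ (ℚ_[ℓ] ⊗[ℚ] W)) (χ : Γ →* ℚ_[ℓ])
    (ω : ℚ_[ℓ] ⊗[ℚ] W →ₗ[ℚ_[ℓ]] ℚ_[ℓ] ⊗[ℚ] W →ₗ[ℚ_[ℓ]] ℚ_[ℓ]) : Prop where
  pos : 1 ≤ g
  dim : finrank ℂ T = g
  rational : IsRationalStructure per
  riemann : IsRiemannForm per ω₀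
  continuous : ∀ (v : ℚ_[ℓ] ⊗[ℚ] W) (f : ℚ_[ℓ] ⊗[ℚ] W →ₗ[ℚ_[ℓ]] ℚ_[ℓ]),
    Continuous fun s => f (ρ s v)
  cyclotomic : Continuous χ
  weil : ∀ u v : W, ω ((1 : ℚ_[ℓ]) ⊗ₜ[ℚ] u) ((1 : ℚ_[ℓ]) ⊗ₜ[ℚ] v) = ((ω₀ u v : ℚ) : ℚ_[ℓ])
  equivariant : ∀ s u v, ω (ρ s u) (ρ s v) = χ s * ω u v
  semisimple : Semisimple ρ
  faltings : Faltings per ρ
  deligne : Deligne per ρ χ
  centres : Centres per ρ χ

/-- The spaces `HY m`, `TY m` of the Hodge classes and of the Tate classes of the generic point of a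
subvariety `Y` which contains `x`: the classes in `HY m` are Hodge classes of `x`, they form a closed
family, and they are in `TY m`; the classes in `TY m` are Tate classes of `x`. -/
structure IsSubvariety (per : W →+ T) (ω₀ : W →ₗ[ℚ] W →ₗ[ℚ] ℚ)
    (ρ : Representation ℚ_[ℓ] Γ (ℚ_[ℓ] ⊗[ℚ] W)) (χ : Γ →* ℚ_[ℓ])
    (HY : ∀ m : ℕ, Submodule ℚ (RatForm W m)) (TY : ∀ m : ℕ, Submodule ℚ_[ℓ] (Form ℓ W m)) :
    Prop where
  closed : IsClosedFamily ω₀ HY
  hodge : ∀ m : ℕ, HY m ≤ HodgeSpace per m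
  hodgeTate : ∀ m : ℕ, Span ℓ (HY m) ≤ TY m
  tate : ∀ m : ℕ, TY m ≤ TateSpace ρ χ m

/-- The bound `1024 c g ^ 3 (⌊log₂ (8 g c)⌋ + 1)` for the degree. -/
def bound (g c : ℕ) : ℕ := 1024 * c * g ^ 3 * (Nat.log 2 (8 * g * c) + 1)

/-- **Points which are not `ℓ`-Galois special.** -/
theorem result [FiniteDimensional ℚ W] [TopologicalSpace Γ] [IsTopologicalGroup Γ]
    [CompactSpace Γ] (g : ℕ) (per : W →+ T) (ω₀ : W →ₗ[ℚ] W →ₗ[ℚ] ℚ)
    (ρ : Representation ℚ_[ℓ] Γ (ℚ_[ℓ] ⊗[ℚ] W)) (χ : Γ →* ℚ_[ℓ])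
    (ω : ℚ_[ℓ] ⊗[ℚ] W →ₗ[ℚ_[ℓ]] ℚ_[ℓ] ⊗[ℚ] W →ₗ[ℚ_[ℓ]] ℚ_[ℓ])
    (hx : IsPoint g per ω₀ ρ χ ω) (HY : ∀ m : ℕ, Submodule ℚ (RatForm W m))
    (TY : ∀ m : ℕ, Submodule ℚ_[ℓ] (Form ℓ W m)) (hY : IsSubvariety per ω₀ ρ χ HY TY) :
    (∀ r c m : ℕ, 1 ≤ r → 1 ≤ c → 256 * c * g ^ 3 * r ^ 2 * (Nat.log 2 (4 * g * c * r) + 1) ≤ m →
      c * dimT (TateSpace ρ χ m) ≤ (2 * c - 1) * dimH (HY m) →
      ∀ m' ≤ r, SameClasses per ρ χ HY TY m') ∧
    (∀ c m n : ℕ, 1 ≤ c → bound g c ≤ m →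
      ((2 * g) ^ (8 * g + 13) ≤ n ∨
        (NoTypeFour per ω₀ ∧ 128 * g ^ 3 * (Nat.log 2 (2 * g) + 1) ≤ n)) →
      c * dimT (TateSpace ρ χ m) ≤ (2 * c - 1) * dimH (HodgeSpace per m) →
      (n + 2) * dimH (HodgeSpace per n) ≤ (2 * n + 2) * dimH (HY n) →
      ∀ m' : ℕ, SameClasses per ρ χ HY TY m') ∧
    (∀ c m : ℕ, 1 ≤ c → bound g c ≤ m → HodgeGeneric per HY → MumfordTate HY TY →
      List.TFAE [
        ∀ m' : ℕ, SameTate ρ χ TY m',
        SameTate ρ χ TY m,
        c * dimT (TateSpace ρ χ m) ≤ (2 * c - 1) * dimT (TY m)]) := by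
  obtain ⟨hg, hT, hper, hω₀, hρ, hχ, hωω, hωρ, hss, hF, hD, hC⟩ := hx
  obtain ⟨hHY, hHx, hHT, hTx⟩ := hY
  classical
  obtain ⟨β, β', hβ⟩ := Pool.Agent.X259.T.exists_dual hper hω₀
  have hd := Pool.Agent.X259.T.finrank_two hper hT
  have hC' : Pool.Agent.X259.T.Closed ω₀ β β' HY :=
    { one := hHY.one
      pol := hHY.polarization
      perm := hHY.perm
      prod := hHY.prod
      contr := hHY.contraction β β' hβ }
  have hcl := Pool.Agent.X259.T.closed_hodge hper hω₀ hβ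
  have hCH : ∀ m, ∀ ψ ∈ HY m, IsHodgeTensor per ψ := fun m ψ hψ => hHx m hψ
  have hCT : ∀ m, ∀ ψ ∈ HY m, ∀ φ : Form ℓ W m,
      (∀ v : Fin m × Fin 2 → W, φ (fun l => (1 : ℚ_[ℓ]) ⊗ₜ[ℚ] v l) = ((ψ v : ℚ) : ℚ_[ℓ])) →
      IsTateTensor ρ χ m φ := fun m ψ hψ φ hφ => hD m ψ (hCH m ψ hψ) φ hφ
  obtain ⟨lam, hlam⟩ : ∃ lam : ℚ_[ℓ] →ₗ[ℚ] ℚ, lam 1 = 1 := by
    obtain ⟨g, hg⟩ := LinearMap.exists_leftInverse_of_injective
      (LinearMap.toSpanSingleton ℚ ℚ_[ℓ] 1) (by
        rw [LinearMap.ker_eq_bot']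
        intro q hq
        rw [LinearMap.toSpanSingleton_apply] at hq
        exact (smul_eq_zero.1 hq).resolve_right one_ne_zero)
    refine ⟨g, ?_⟩
    have h := congrArg (fun f : ℚ →ₗ[ℚ] ℚ => f 1) hg
    simpa using h
  -- the conclusion
  have fin : ∀ m', (∀ φ : Form ℓ W m', IsTateTensor ρ χ m' φ →
      ∀ lam : ℚ_[ℓ] →ₗ[ℚ] ℚ, Pool.Agent.W516.DR.fcmp lam φ ∈ HY m') →
      SameClasses per ρ χ HY TY m' := by
    intro m' h
    have h1 : TateSpace ρ χ m' ≤ Span ℓ (HY m') := fun φ hφ =>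
      Pool.Agent.X259.Q.mem_of_fcmp (HY m') (h φ hφ)
    refine ⟨le_antisymm (hHx m') fun ψ hψ => ?_, le_antisymm (hHT m') ((hTx m').trans h1),
      le_antisymm (hTx m') (h1.trans (hHT m'))⟩
    let φ : Form ℓ W m' := Pool.Agent.H204R3.SP.bcm (Ω := ℚ_[ℓ]) (finBasis ℚ W) ψ
    have hφ : ∀ v : Fin m' × Fin 2 → W, φ (fun l => (1 : ℚ_[ℓ]) ⊗ₜ[ℚ] v l) =
        ((ψ v : ℚ) : ℚ_[ℓ]) := fun v => by
      rw [← eq_ratCast (algebraMap ℚ ℚ_[ℓ])]
      exact Pool.Agent.H204R3.SP.bcm_one (finBasis ℚ W) ψ v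
    have h1 := h φ (hD m' ψ hψ φ hφ) lam
    have h2 : Pool.Agent.W516.DR.fcmp lam φ = ψ := by
      ext v
      rw [Pool.Agent.W516.DR.fcmp_apply, hφ]
      have h3 : ((ψ v : ℚ) : ℚ_[ℓ]) = ψ v • (1 : ℚ_[ℓ]) := by
        rw [Rat.smul_def, mul_one]
      rw [h3, map_smul, hlam, smul_eq_mul, mul_one]
    rwa [h2] at h1
  -- the Mumford-Tate conjecture
  have mt : ∀ c m : ℕ, 1 ≤ c → 1024 * c * g ^ 3 * (Nat.log 2 (8 * g * c) + 1) ≤ m →
      c * finrank ℚ_[ℓ] (TateSpace ρ χ m) ≤ (2 * c - 1) * finrank ℚ (HodgeSpace per m) →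
      ∀ (m' : ℕ) (φ : Form ℓ W m'), IsTateTensor ρ χ m' φ →
        ∀ lam : ℚ_[ℓ] →ₗ[ℚ] ℚ, Pool.Agent.W516.DR.fcmp lam φ ∈ HodgeSpace per m' := by
    intro c m hc hm h m' φ hφ lam
    exact Pool.Agent.X259.U.tate_mt hg hd hper hω₀ hρ hχ hωω hωρ hss hF hD hC hc hm
      (TT := TateSpace ρ χ m) (fun φ hφ => hφ) h m' φ hφ lam
  refine ⟨?_, ?_, ?_⟩
  · intro r c m hr hc hm h m' hm'
    refine fin m' fun φ hφ lam => ?_
    refine Pool.Agent.X259.U.tate_low hper hω₀ hβ hωω hωρ hC' hCH hCT (by omega) hr (k := c)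
      (m := m) hc ?_ (TT := TateSpace ρ χ m) (fun φ hφ => hφ) h hm' φ hφ lam
    rw [hd]
    have h1 : 2 * (2 * g) * c * r = 4 * g * c * r := by ring
    rw [h1]
    convert hm using 1
    ring
  · intro c m n hc hm hn h1 h2 m'
    refine fin m' fun φ hφ lam => ?_
    refine Pool.Agent.X259.U.hodge_half hper hω₀ hβ hC' hCH (by omega) (m := n) ?_
      (B := HodgeSpace per n) (fun ψ => Iff.rfl) h2 m' _ (mt c m hc hm h1 m' φ hφ lam)
    rcases hn with hn | ⟨h4, hn⟩
    · left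
      rw [hd]
      convert hn using 2
      ring
    · right
      refine ⟨h4, ?_⟩
      rw [hd]
      convert hn using 1
      ring
  · intro c m hc hm hgen hmt
    tfae_have 1 → 2 := fun h => h m
    tfae_have 2 → 3 := fun h => by
      rw [show TY m = TateSpace ρ χ m from h]
      exact Nat.mul_le_mul_right _ (by omega)
    tfae_have 3 → 1 := by
      intro h m'
      have h1 : finrank ℚ_[ℓ] (TY m) ≤ finrank ℚ (HodgeSpace per m) := by
        rw [← hmt m, ← hgen m]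
        exact Pool.Agent.X259.U.finrank_comb_le (ℓ := ℓ) (HY m)
      refine (fin m' fun φ hφ lam => ?_).2.2
      rw [hgen m']
      exact mt c m hc hm (h.trans (Nat.mul_le_mul_left _ h1)) m' φ hφ lam
    tfae_finish

end Pool.Agent.Results.MP_09799c_ag.NotGaloisSpecial
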