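import Mathlib
import Pool.Agent.X292.NS.Main

/-!
# Points of `𝒜_g` which are not `ℓ`-Galois special: products of any abelian variety with abelian
varieties with toric places

Let `x` be a point of `𝒜_g` over the algebraic numbers such that `A_x` is isogenous to
`B × ∏ (A i) ^ (n i)`, where `i` is in a finite set `I` and `n i ≥ 1`. The abelian variety `B` is
arbitrary and nothing is assumed about its Mumford-Tate group or its group `G_{ℓ,B}`. We prove, under
the hypotheses below on the places of bad reduction of the `A i`, that `x` is not `ℓ`-Galois special
if `I` is not empty; and we determine all subvarieties `Y` through `x` with `G_{ℓ,Y} = G_{ℓ,x}`.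

Let `Γ` be the absolute Galois group of a number field `k`, over which `x`, `B` and the `A i` are
defined, `ρB` and `ρ i` its representations on the rational `ℓ`-adic Tate modules, with bases of the
rational homology, which also give the matrices `ψB` and `ψ i` of Riemann forms; `χ` is the
cyclotomic character. So `sumRep n ρB ρ` is the representation on the Tate module of `A_x`, and
`G_{ℓ,x}` is the identity component of the Zariski closure of its image. The hypotheses (`GoodAt`):

* The `A i` have no endomorphisms besides `ℤ` over the algebraic closure and they are not isogenous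
  to each other (by Faltings this is `StronglyIrreducible` and `NoHom`).
* Each `A i` has a place `v` of bad reduction such that the defects of a generator `γ` of the tame
  inertia at `v` (after a finite extension) have no common prime factor, or one of them is two
  (`HasToricElement`); `B` and all `A j` have semistable reduction there. The defects are: the rank
  of `γ - 1` on the Tate module, this is the toric rank of the reduction; and the multiplicities of
  the nonzero eigenvalues of `(γ - 1) (γ' - 1)` for other such `γ'`, for instance conjugates of `γ`.
* `B` is small at `i` (`IsSmall`) for all `i`: `ℚ_ℓ^alg ⊗ V_ℓ(B)` is the sum of stable subspaces `U`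
  such that `s = rank (γ - 1 | U)`, for some place `v` with inertia generator `γ`, is small compared
  to the toric rank `r` of `A i` at `v`: `2 s ^ 2 < r (r + 1)`; for `U` with an alternating invariant
  form (with multiplier `χ`) `s < r`; for `U` with a symmetric form `s ≤ r`. Instead of `s`, `r` one
  can compare the dimensions of `U` and of `V_ℓ (A i)`.

For example it suffices that `B` has potentially good reduction at some place where `A i` has bad
reduction (then `s = 0`).

**Subvarieties through `x`.** Let `Y ⊂ 𝒜_g` be a closed irreducible subvariety which contains `x`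
and `ΓY` the absolute Galois group of its function field (over `k`, which we may enlarge). After an
alteration of `Y` the point `x` lifts to a regular `k`-rational point; its completed local ring is a
ring of power series over `k`, and this gives a homomorphism `sec : Γ →* ΓY` (a splitting of the
decomposition group), whose composition with the projection `pr : ΓY →* Γ` is the identity. The
Tate module of `A_Y` is the Tate module of `A_x`, and the representation `R` of `ΓY` on it satisfies
`R (sec s) = sumRep n ρB ρ s`. The group `G_{ℓ,Y}` is the identity component of the Zariski closure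
of the image of `R`. The identity components are equal exactly if the same polynomials vanish on the
images of subgroups of finite index (`SameGroup`).

**Theorem.**

1. `G_{ℓ,Y} = G_{ℓ,x}` if and only if over a finite covering of `Y` the decomposition of `A_x` and
   the polarizations extend to `A_Y`, that is `R` is the direct sum of a representation `RB` and of
   `n i` copies of representations `RA i` (`IsSplitting`), and `G_ℓ(RB) = G_{ℓ,B}`. The `A i` may
   vary in an arbitrary way.
2. If `B` is constant along `Y` (so `R` is the sum of `ρB ∘ pr` and of any `RA i` which specialize to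
   the `ρ i`) then `G_{ℓ,Y} = G_{ℓ,x}`.

**`x` is not `ℓ`-Galois special** if `I` is not empty: let `Y` be the image in `𝒜_g` of the moduli
space of the families `B × ∏ (A' i) ^ (n i)`, where the polarized abelian varieties `A' i` (with level
structure) vary in the whole moduli space, of dimension `g_i (g_i + 1) / 2 > 0`. (The polarization of
`A_x` induces on the product a block diagonal form, in the block `i` a positive definite matrix over
`ℤ` times the polarization of `A i`, because `End (A i) = ℤ` and there are no homomorphisms between
the different factors; so it extends over the family, and so does the kernel of the isogeny.) By 2 we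
have `G_{ℓ,Y} = G_{ℓ,x}`. By 1 all `Y` with this property arise from the subvarieties through the
point of `B` with the same group as `B`.

In the proof `W528.ZC` provides the Lie algebra of the Zariski closure, the nilpotent elements
`γ - 1` generate an algebra that acts by the whole symplectic Lie algebra on each `V_ℓ (A i)`, and
the comparison of ranks or dimensions in Goursat's lemma shows that it contains the operators that
are zero on `V_ℓ (B)` and on the other `V_ℓ (A j)`. So `G_{ℓ,x}` is the group of all `(gB, gA i)`
with `gB` in `G_{ℓ,B}` and similitudes `gA i` with the multiplier of `gB`. The blocks and the forms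
give `G_{ℓ,Y} ⊂` this group in 1, and `G_{ℓ,x} ⊂ G_{ℓ,Y}` by specialization. Conversely, if
`G_{ℓ,Y} = G_{ℓ,x}` then a subgroup of finite index of `ΓY` has its image in this group.
-/

set_option autoImplicit false

namespace Pool.Agent.Results.MP_09799c_ag.NotSpecialTimesAny

open Module Pool.Agent.X292.ZP Pool.Agent.X292.NS
open Pool.Agent.W528.ZC (mapQ Vanishes)

/-- **The subvarieties `Y` through `x` with `G_{ℓ,Y} = G_{ℓ,x}`**, for `A_x` isogenous to
`B × ∏ (A i) ^ (n i)`. -/
theorem result {I : Type} [Fintype I] [DecidableEq I] {κ : Type} [Fintype κ] [DecidableEq κ]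
    {ι : I → Type} [∀ i, Fintype (ι i)] [∀ i, DecidableEq (ι i)] {Γ : Type} [Group Γ]
    (n : I → ℕ) (hn : ∀ i, 0 < n i) (ψB : Matrix κ κ ℚ) (hψB : IsUnit ψB.det)
    (ψ : ∀ i, Matrix (ι i) (ι i) ℚ) (halt : ∀ i, (ψ i).transpose = -ψ i)
    (hψ : ∀ i, IsUnit (ψ i).det) (ℓ : ℕ) [Fact ℓ.Prime] (ρB : Γ →* Matrix κ κ ℚ_[ℓ])
    (ρ : ∀ i, Γ →* Matrix (ι i) (ι i) ℚ_[ℓ]) (χ : Γ →* ℚ_[ℓ])
    (hgood : GoodAt ψB ψ ℓ ρB ρ χ) (ΓY : Type) [Group ΓY] (sec : Γ →* ΓY) :
    (∀ R : ΓY →* Matrix (Idx κ ι n) (Idx κ ι n) ℚ_[ℓ],
      (∀ s, R (sec s) = sumRep n ρB ρ s) →
      (SameGroup (sumRep n ρB ρ) R ↔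
        ∃ (Δ : Subgroup ΓY) (RB : Δ →* Matrix κ κ ℚ_[ℓ])
          (RA : ∀ i, Δ →* Matrix (ι i) (ι i) ℚ_[ℓ]) (χ' : Δ →* ℚ_[ℓ]),
          IsSplitting n ψB ψ R Δ RB RA χ' ∧ SameGroup ρB RB)) ∧
    (∀ pr : ΓY →* Γ, (∀ s, pr (sec s) = s) →
      ∀ RA : ∀ i, ΓY →* Matrix (ι i) (ι i) ℚ_[ℓ], (∀ i s, RA i (sec s) = ρ i s) →
      (∀ i s, (RA i s).transpose * mapQ ℚ_[ℓ] (ψ i) * RA i s =
        χ (pr s) • mapQ ℚ_[ℓ] (ψ i)) →
      SameGroup (sumRep n ρB ρ) (sumRep n (ρB.comp pr) RA)) :=
  ⟨fun _ hR => same_iff hn hψB halt hψ hgood sec hR,
    fun pr hpr _ hRA hform => same_const hn hψB halt hψ hgood sec pr hpr hRA hform⟩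

end Pool.Agent.Results.MP_09799c_ag.NotSpecialTimesAny
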