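import Mathlib
import Pool.Agent.X292.NS.Pel

/-!
# Points of `𝒜_g` which are not `ℓ`-Galois special: endomorphisms and places of bad reduction

Let `x` be a point of `𝒜_g` over the algebraic numbers, `A = A_x`, `V = H_1(A(ℂ), ℚ)` with a basis
indexed by `ι`, `ψ` the matrix of a Riemann form, `E` the set of the matrices of the endomorphisms of
`A` over the algebraic closure, `Γ` the absolute Galois group of a number field `k` over which `x` is
defined, `ρ` its representation on `V ⊗ ℚ_ℓ`, for one prime number `ℓ`, and `χ` the cyclotomic
character. The structure `Known` collects the known properties of `ρ` (Weil pairing, Faltings,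
Hodge-Tate, Pink). The group `G_{ℓ,x}` is the identity component of the Zariski closure of the image
of `ρ`.

Let `Y ⊂ 𝒜_g` be a closed irreducible subvariety which contains `x` and `ΓY` the absolute Galois
group of its function field (over `k`, which we may enlarge). After an alteration of `Y` the point
`x` lifts to a regular `k`-rational point; its completed local ring is a ring of power series over
`k`, and this gives a homomorphism `sec : Γ →* ΓY` (a splitting of the decomposition group). The Tate
module of `A_Y` is the Tate module of `A_x`, the representation `R` of `ΓY` on it satisfies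
`R (sec s) = ρ s`, and it preserves the same Weil pairing, with the cyclotomic character `χY` of
`ΓY`. The group `G_{ℓ,Y}` is the identity component of the Zariski closure of the image of `R`. The
identity components are equal exactly if the same polynomials vanish on the images of subgroups of
finite index (`SameGroup`).

**Theorem.** Let `A_x` satisfy the condition `GoodAt` below. Then `G_{ℓ,Y} = G_{ℓ,x}` if and only if
all endomorphisms of `A_x` extend to `A_Y` over a finite covering of `Y` (the matrices in `E` commute
with the image of a subgroup of finite index of `ΓY`; by the theorem of Faltings this means that they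
come from endomorphisms of `A_Y`).

Let `Z ⊂ 𝒜_g` be the special subvariety of PEL type which is defined by `E`: the component of the
locus in `𝒜_g` where the endomorphisms in `E` extend which contains `x`. So the subvarieties `Y`
through `x` with `G_{ℓ,Y} = G_{ℓ,x}` are exactly the subvarieties of `Z` which contain `x`. By
`GoodAt` all simple factors of `A_x` are of type I or II, so the dimension of `Z` is positive.
**Hence `x` is not `ℓ`-Galois special**, and `Z`, which is special, is the only `ℓ`-Galois special
subvariety `Y` through `x` with `G_{ℓ,Y} = G_{ℓ,x}`.

The condition `GoodAt` is that of the starting result `MP_e965d0_ag.BadPlaces` (for one prime). The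
*strongly irreducible* subspaces `U` (predicate `SI`) of `ℚ_ℓ^alg ⊗ V` are the minimal nonzero
subspaces that are stable under a subgroup of finite index of `Γ`. If `End(A) = ℤ` there is just
one, the whole space. All of them are self-dual with an alternating pairing exactly if all simple
factors of `A` are of type I or II in Albert's classification. Let `v` be a place of bad semistable
reduction, `γ` an element of the inertia group at `v` that acts nontrivially and `F` a Frobenius
element. Then `(γ - 1) ^ 2 = 0`, the rank `t` of `γ - 1` is the toric rank, and the eigenvalues of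
`F` are `1` and `q`, with multiplicity `t`, and the eigenvalues, of weight one, of the Frobenius on
the abelian part of the reduction. The hypothesis for `End(A) = ℤ`, `g = dim A`: the toric rank, or
the multiplicity of a nonzero eigenvalue of `(γ - 1) (g γ g⁻¹ - 1)` for some `g` in `Γ`, is two or
odd; or `F` has an eigenvalue of odd multiplicity and `t < g / 2` or some eigenvalue of weight one
has multiplicity smaller than `g / 4`.

In the proof the library of the cited result shows that `G_{ℓ,x}` is the Lefschetz group of the
similitudes of `ψ` that commute with `E`. If the endomorphisms extend then `G_{ℓ,Y}` is in this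
group, and it contains `G_{ℓ,x}` by specialization. Conversely, if the groups are equal then a
subgroup of finite index of `ΓY` has its image in the Lefschetz group.
-/

set_option autoImplicit false

namespace Pool.Agent.Results.MP_09799c_ag.PelTypePoints

open Pool.Agent.X292.NS
open Pool.Agent.W528.ZC (mapQ)
open Pool.Agent.Results.MP_e965d0_ag.BadPlaces (GoodAt)

/-- **`G_{ℓ,Y} = G_{ℓ,x}` if and only if the endomorphisms of `A_x` extend to `A_Y`.** -/
theorem result {ι : Type} [Fintype ι] [DecidableEq ι] (ψ : Matrix ι ι ℚ)
    (_halt : ψ.transpose = -ψ) (hψ : IsUnit ψ.det) (E : Set (Matrix ι ι ℚ))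
    {Γ : Type} [Group Γ] (ℓ : ℕ) [Fact ℓ.Prime] (ρ : Γ →* Matrix ι ι ℚ_[ℓ]) (χ : Γ →* ℚ_[ℓ])
    (hgood : GoodAt ψ E ℓ ρ χ) (ΓY : Type) [Group ΓY] (sec : Γ →* ΓY)
    (R : ΓY →* Matrix ι ι ℚ_[ℓ]) (χY : ΓY →* ℚ_[ℓ]) (hspec : ∀ s, R (sec s) = ρ s)
    (hform : ∀ s, (R s).transpose * mapQ ℚ_[ℓ] ψ * R s = χY s • mapQ ℚ_[ℓ] ψ) :
    SameGroup ρ R ↔ ∃ Δ : Subgroup ΓY, Δ.FiniteIndex ∧
      ∀ s ∈ Δ, ∀ e ∈ E, mapQ ℚ_[ℓ] e * R s = R s * mapQ ℚ_[ℓ] e :=
  same_iff_endo hψ hgood sec hspec hform

end Pool.Agent.Results.MP_09799c_ag.PelTypePoints
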